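import Pool.Agent.H592.TR.Stm
import Pool.Agent.H592.TD.S8

/-!
# TR project: the box statement `T8` from `T1`, `T5`, `T6`, `T7`
-/

set_option autoImplicit false

open Finset Filter Topology

namespace Pool.Agent.H592.TR

open Pool.Agent.H592.TD (In rho cc Good)
open Pool.Agent.H592.TD.P8 (mem_In card_In HH HH_bound HH_nonneg HH_tendsto)

namespace P8

/-! ### periodic counting -/

lemma sum_period {f : ℕ → ℕ} {L : ℕ} (h : ∀ b, f (b + L) = f b) (g : ℕ) :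
    ∑ b ∈ range (L * g), f b = g * ∑ b ∈ range L, f b := by
  have hm : ∀ k b, f (L * k + b) = f b := by
    intro k
    induction k with
    | zero => intro b; simp
    | succ k ih =>
      intro b
      have e : L * (k + 1) + b = L * k + b + L := by ring
      rw [e, h, ih]
  induction g with
  | zero => simp
  | succ g ih =>
    rw [mul_add, mul_one, Finset.sum_range_add, ih, sum_congr rfl (fun b _ => hm g b)]
    ring

lemma card_period (P : ℕ → ℕ → Prop) [∀ b c, Decidable (P b c)] {L : ℕ}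
    (h1 : ∀ b c, P (b + L) c ↔ P b c) (h2 : ∀ b c, P b (c + L) ↔ P b c) (g : ℕ) :
    ((range (L * g) ×ˢ range (L * g)).filter (fun p : ℕ × ℕ => P p.1 p.2)).card =
      g ^ 2 * ((range L ×ˢ range L).filter (fun p : ℕ × ℕ => P p.1 p.2)).card := by
  have e : ∀ n, ((range n ×ˢ range n).filter (fun p : ℕ × ℕ => P p.1 p.2)).card =
      ∑ b ∈ range n, ∑ c ∈ range n, if P b c then 1 else 0 := by
    intro n
    rw [card_filter, sum_product]
  rw [e, e]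
  have e2 : ∀ b, ∑ c ∈ range (L * g), (if P b c then 1 else 0) =
      g * ∑ c ∈ range L, if P b c then 1 else 0 := by
    intro b
    refine sum_period (fun c => ?_) g
    simp only [h2]
  rw [sum_congr rfl (fun b _ => e2 b), ← mul_sum,
    sum_period (f := fun b => ∑ c ∈ range L, if P b c then 1 else 0) (fun b => ?_) g]
  · ring
  · simp only [h1]

/-! ### one pair of moduli -/

lemma lcm_dvd_int {m n : ℕ} {k : ℤ} (h1 : (m : ℤ) ∣ k) (h2 : (n : ℤ) ∣ k) :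
    ((Nat.lcm m n : ℕ) : ℤ) ∣ k := by
  rw [Int.natCast_dvd] at h1 h2 ⊢
  exact Nat.lcm_dvd h1 h2

lemma m_dvd {m n : ℕ} {k : ℤ} (h : ((Nat.lcm m n : ℕ) : ℤ) ∣ k) : (m : ℤ) ∣ k :=
  dvd_trans (by exact_mod_cast Nat.dvd_lcm_left m n) h

lemma n_dvd {m n : ℕ} {k : ℤ} (h : ((Nat.lcm m n : ℕ) : ℤ) ∣ k) : (n : ℤ) ∣ k :=
  dvd_trans (by exact_mod_cast Nat.dvd_lcm_right m n) h

lemma exists_s {u v : ℤ} {m n : ℕ} (hm : 1 ≤ m) (hn : 1 ≤ n) (h : RR u v m n ≠ 0) :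
    ∃ s : ℤ, s ≠ 0 ∧ (∀ z : ℤ, ((Nat.lcm m n : ℕ) : ℤ) ∣ z + s ↔
      (m : ℤ) ∣ z + u ∧ (n : ℤ) ∣ z + v) ∧ (m : ℤ) ∣ s - u ∧ (n : ℤ) ∣ s - v := by
  have hne : ((range (m * n) ×ˢ range (m * n)).filter (fun p : ℕ × ℕ =>
      (m : ℤ) ∣ (p.1 : ℤ) * p.2 + u ∧ (n : ℤ) ∣ (p.1 : ℤ) * p.2 + v)).Nonempty := by
    rw [nonempty_iff_ne_empty]
    intro he
    apply h
    unfold RR
    rw [he]
    simp
  obtain ⟨⟨b, c⟩, hbc⟩ := hne
  rw [mem_filter] at hbc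
  obtain ⟨-, h1, h2⟩ := hbc
  simp only at h1 h2
  have hL : 0 < Nat.lcm m n := Nat.lcm_pos hm hn
  have e1 : (m : ℤ) ∣ -((b : ℤ) * c + (Nat.lcm m n : ℕ)) - u := by
    have e : -((b : ℤ) * c + (Nat.lcm m n : ℕ)) - u =
      -((b : ℤ) * c + u) - (Nat.lcm m n : ℕ) := by ring
    rw [e]
    exact dvd_sub (dvd_neg.2 h1) (by exact_mod_cast Nat.dvd_lcm_left m n)
  have e2 : (n : ℤ) ∣ -((b : ℤ) * c + (Nat.lcm m n : ℕ)) - v := by
    have e : -((b : ℤ) * c + (Nat.lcm m n : ℕ)) - v =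
      -((b : ℤ) * c + v) - (Nat.lcm m n : ℕ) := by ring
    rw [e]
    exact dvd_sub (dvd_neg.2 h2) (by exact_mod_cast Nat.dvd_lcm_right m n)
  refine ⟨-((b : ℤ) * c + (Nat.lcm m n : ℕ)), ?_, ?_, e1, e2⟩
  · have : (0 : ℤ) < (b : ℤ) * c + (Nat.lcm m n : ℕ) := by positivity
    omega
  · intro z
    constructor
    · intro hz
      constructor
      · have := dvd_sub (m_dvd hz) e1
        have e : z + -((b : ℤ) * c + (Nat.lcm m n : ℕ)) -
          (-((b : ℤ) * c + (Nat.lcm m n : ℕ)) - u) = z + u := by ring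
        rwa [e] at this
      · have := dvd_sub (n_dvd hz) e2
        have e : z + -((b : ℤ) * c + (Nat.lcm m n : ℕ)) -
          (-((b : ℤ) * c + (Nat.lcm m n : ℕ)) - v) = z + v := by ring
        rwa [e] at this
    · rintro ⟨h3, h4⟩
      apply lcm_dvd_int
      · have := dvd_add h3 e1
        have e : z + u + (-((b : ℤ) * c + (Nat.lcm m n : ℕ)) - u) =
          z + -((b : ℤ) * c + (Nat.lcm m n : ℕ)) := by ring
        rwa [e] at this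
      · have := dvd_add h4 e2
        have e : z + v + (-((b : ℤ) * c + (Nat.lcm m n : ℕ)) - v) =
          z + -((b : ℤ) * c + (Nat.lcm m n : ℕ)) := by ring
        rwa [e] at this

lemma rho_eq {u v s : ℤ} {m n : ℕ} (hm : 1 ≤ m) (hn : 1 ≤ n)
    (hs : ∀ z : ℤ, ((Nat.lcm m n : ℕ) : ℤ) ∣ z + s ↔ (m : ℤ) ∣ z + u ∧ (n : ℤ) ∣ z + v) :
    rho s 1 (Nat.lcm m n) = RR u v m n := by
  have hL : 0 < Nat.lcm m n := Nat.lcm_pos hm hn
  have hg : 0 < Nat.gcd m n := Nat.gcd_pos_of_pos_left n hm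
  have hLg : m * n = Nat.lcm m n * Nat.gcd m n := by rw [mul_comm (Nat.lcm m n), Nat.gcd_mul_lcm]
  have hcount := card_period (fun b c => ((Nat.lcm m n : ℕ) : ℤ) ∣ (b : ℤ) * c + s)
    (L := Nat.lcm m n) (fun b c => by
      push_cast
      have e : ((b : ℤ) + (Nat.lcm m n : ℕ)) * c + s = (b : ℤ) * c + s + (Nat.lcm m n : ℕ) * c := by
        ring
      rw [e]
      exact (Int.dvd_add_left (dvd_mul_right _ _)))
    (fun b c => by
      push_cast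
      have e : (b : ℤ) * ((c : ℤ) + (Nat.lcm m n : ℕ)) + s =
        (b : ℤ) * c + s + (Nat.lcm m n : ℕ) * b := by ring
      rw [e]
      exact (Int.dvd_add_left (dvd_mul_right _ _))) (Nat.gcd m n)
  have h1 : ((range (m * n) ×ˢ range (m * n)).filter (fun p : ℕ × ℕ =>
      (m : ℤ) ∣ (p.1 : ℤ) * p.2 + u ∧ (n : ℤ) ∣ (p.1 : ℤ) * p.2 + v)) =
      ((range (Nat.lcm m n * Nat.gcd m n) ×ˢ range (Nat.lcm m n * Nat.gcd m n)).filter
        (fun p : ℕ × ℕ => ((Nat.lcm m n : ℕ) : ℤ) ∣ (p.1 : ℤ) * p.2 + s)) := by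
    rw [hLg]
    exact filter_congr fun p _ => (hs _).symm
  unfold rho RR
  rw [h1, hcount]
  have h2 : ((m : ℝ) * n) = (Nat.lcm m n : ℝ) * (Nat.gcd m n : ℝ) := by exact_mod_cast hLg
  have hL' : (0 : ℝ) < (Nat.lcm m n : ℝ) := by exact_mod_cast hL
  have hg' : (0 : ℝ) < (Nat.gcd m n : ℝ) := by exact_mod_cast hg
  rw [h2]
  simp only [Nat.cast_one, one_mul]
  push_cast
  field_simp

lemma adm_dvd {u v : ℤ} (h : Adm u v) : u ∣ 2 ∧ v ∣ 2 ∧ (v - u) ∣ 2 := by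
  rcases h with ⟨rfl, rfl⟩ | ⟨rfl, rfl⟩ | ⟨rfl, rfl⟩ <;> norm_num

lemma good_of {Z m n : ℕ} {u v s : ℤ} (hG : Good2 Z m n) (hA : Adm u v) (h1 : (m : ℤ) ∣ s - u)
    (h2 : (n : ℤ) ∣ s - v) : Good s Z (Nat.lcm m n) := by
  obtain ⟨M₀, q, hq1, hq2, hq3, hq4, hq5, hq6⟩ := hG
  refine ⟨M₀, q, hq1, hq2, hq3, hq4, hq5, ?_⟩
  by_contra hcon
  rw [Nat.Prime.not_coprime_iff_dvd] at hcon
  obtain ⟨p, hp, hpq, hps⟩ := hcon
  have hps' : (p : ℤ) ∣ s := Int.natCast_dvd.2 hps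
  have hpL : p ∣ Nat.lcm m n := by rw [hq1]; exact hpq.mul_left _
  have hpmn : p ∣ m * n := hpL.trans (Nat.lcm_dvd_mul m n)
  obtain ⟨hu2, hv2, -⟩ := adm_dvd hA
  have hp2 : (p : ℤ) ∣ 2 := by
    rcases (Nat.Prime.dvd_mul hp).1 hpmn with h | h
    · have h3 : (p : ℤ) ∣ s - u := dvd_trans (by exact_mod_cast h) h1
      have h4 := dvd_sub hps' h3
      rw [sub_sub_cancel] at h4
      exact h4.trans hu2
    · have h3 : (p : ℤ) ∣ s - v := dvd_trans (by exact_mod_cast h) h2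
      have h4 := dvd_sub hps' h3
      rw [sub_sub_cancel] at h4
      exact h4.trans hv2
  have hp2' : p ∣ 2 := by exact_mod_cast hp2
  have hp3 : p = 2 := (Nat.prime_dvd_prime_iff_eq hp Nat.prime_two).1 hp2'
  have h5 : Odd p := hq6.of_dvd_nat hpq
  rw [hp3] at h5
  exact absurd h5 (by decide)

lemma lcm_ge {m n : ℕ} {u v s : ℤ} (hA : Adm u v) (h1 : (m : ℤ) ∣ s - u)
    (h2 : (n : ℤ) ∣ s - v) : m * n ≤ 2 * Nat.lcm m n := by
  obtain ⟨-, -, hd⟩ := adm_dvd hA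
  have h3 : ((Nat.gcd m n : ℕ) : ℤ) ∣ s - u :=
    dvd_trans (by exact_mod_cast Nat.gcd_dvd_left m n) h1
  have h4 : ((Nat.gcd m n : ℕ) : ℤ) ∣ s - v :=
    dvd_trans (by exact_mod_cast Nat.gcd_dvd_right m n) h2
  have h5 := dvd_sub h3 h4
  have e : s - u - (s - v) = v - u := by ring
  rw [e] at h5
  have h6 : ((Nat.gcd m n : ℕ) : ℤ) ∣ 2 := h5.trans hd
  have h7 : Nat.gcd m n ∣ 2 := by exact_mod_cast h6
  have h8 : Nat.gcd m n ≤ 2 := Nat.le_of_dvd (by norm_num) h7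
  rw [← Nat.gcd_mul_lcm m n]
  exact Nat.mul_le_mul_right _ h8

/-! ### the counts -/

/-- the count for given `m`, `n` -/
noncomputable def SS2 (X a₀ b₀ : ℝ) (t q r m n : ℕ) : ℕ :=
  ∑ b ∈ In X a₀ b₀, ((Ioc ⌊X / (2 * Real.log X)⌋₊ ⌊X⌋₊).filter
    (fun N => b ∣ N + t ∧ m ∣ N + q ∧ n ∣ N + r)).card

/-- the count with three shifts -/
noncomputable def CT (X a₀ b₀ a₁ b₁ a₂ b₂ : ℝ) (t q r : ℕ) : ℕ :=
  ∑ N ∈ Ioc ⌊X / (2 * Real.log X)⌋₊ ⌊X⌋₊,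
    dv X a₀ b₀ (N + t) * (dv X a₁ b₁ (N + q) * dv X a₂ b₂ (N + r))

lemma CT_eq (X a₀ b₀ a₁ b₁ a₂ b₂ : ℝ) (t q r : ℕ) :
    CT X a₀ b₀ a₁ b₁ a₂ b₂ t q r =
      ∑ m ∈ In X a₁ b₁, ∑ n ∈ In X a₂ b₂, SS2 X a₀ b₀ t q r m n := by
  have h1 : ∀ N : ℕ, dv X a₀ b₀ (N + t) * (dv X a₁ b₁ (N + q) * dv X a₂ b₂ (N + r)) =
      ∑ m ∈ In X a₁ b₁, ∑ n ∈ In X a₂ b₂, ∑ b ∈ In X a₀ b₀,
        if b ∣ N + t ∧ m ∣ N + q ∧ n ∣ N + r then 1 else 0 := by
    intro N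
    have h2 : ∀ b m n : ℕ, (if b ∣ N + t ∧ m ∣ N + q ∧ n ∣ N + r then 1 else 0) =
        (if b ∣ N + t then 1 else 0) * ((if m ∣ N + q then 1 else 0) *
          (if n ∣ N + r then 1 else 0)) := by
      intro b m n
      by_cases h3 : b ∣ N + t <;> by_cases h4 : m ∣ N + q <;> by_cases h5 : n ∣ N + r <;>
        simp [h3, h4, h5]
    simp only [h2, ← Finset.sum_mul, ← Finset.mul_sum]
    unfold dv
    rw [card_filter, card_filter, card_filter]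
  unfold CT
  rw [sum_congr rfl (fun N _ => h1 N), sum_comm]
  refine sum_congr rfl fun m _ => ?_
  rw [sum_comm]
  refine sum_congr rfl fun n _ => ?_
  rw [sum_comm]
  unfold SS2
  refine sum_congr rfl fun b _ => ?_
  rw [card_filter]

lemma cc_le {X : ℝ} (hX : 0 < Real.log X) (hX2 : 2 ≤ X / (2 * Real.log X)) {u v s : ℤ}
    {t q r m n b : ℕ} (ht : t ≤ 2) (hu : (q : ℤ) = t + u) (hv : (r : ℤ) = t + v) (hb : 1 ≤ b)
    (hs : ∀ z : ℤ, ((Nat.lcm m n : ℕ) : ℤ) ∣ z + s ↔ (m : ℤ) ∣ z + u ∧ (n : ℤ) ∣ z + v) :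
    cc s X (Nat.lcm m n) 1 b ≤ ((Ioc ⌊X / (2 * Real.log X)⌋₊ ⌊X⌋₊).filter
      (fun N => b ∣ N + t ∧ m ∣ N + q ∧ n ∣ N + r)).card := by
  have hdouble : X / Real.log X = 2 * (X / (2 * Real.log X)) := by field_simp
  unfold cc
  have hbc : ∀ c ∈ (Icc 1 ⌊X⌋₊).filter (fun c : ℕ => X / Real.log X < ((1 * b * c : ℕ) : ℝ) ∧
      ((1 * b * c : ℕ) : ℝ) ≤ X ∧ ((Nat.lcm m n : ℕ) : ℤ) ∣ ((1 : ℕ) : ℤ) * b * c + s),
      t ≤ b * c ∧ X / Real.log X < (b : ℝ) * c ∧ (b : ℝ) * c ≤ X ∧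
        ((Nat.lcm m n : ℕ) : ℤ) ∣ (b : ℤ) * c + s := by
    intro c hc
    rw [mem_filter] at hc
    obtain ⟨-, h1, h2, h3⟩ := hc
    rw [one_mul] at h1 h2
    rw [Nat.cast_one, one_mul] at h3
    push_cast at h1 h2
    refine ⟨?_, h1, h2, h3⟩
    have h4 : (2 : ℝ) ≤ (b : ℝ) * c := by linarith
    have h5 : 2 ≤ b * c := by exact_mod_cast h4
    omega
  refine card_le_card_of_injOn (fun c => b * c - t) ?_ ?_
  · intro c hc
    obtain ⟨h1, h2, h3, h4⟩ := hbc c hc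
    obtain ⟨h5, h6⟩ := (hs _).1 h4
    rw [Finset.mem_coe, mem_filter, mem_Ioc]
    simp only
    have hcast : ((b * c - t : ℕ) : ℝ) = (b : ℝ) * c - t := by
      rw [Nat.cast_sub h1]
      push_cast
      rfl
    have ht' : (t : ℝ) ≤ 2 := by exact_mod_cast ht
    refine ⟨⟨?_, ?_⟩, ?_, ?_, ?_⟩
    · rw [Nat.floor_lt (by linarith), hcast]
      linarith
    · apply Nat.le_floor
      rw [hcast]
      have : (0 : ℝ) ≤ t := Nat.cast_nonneg _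
      linarith
    · rw [Nat.sub_add_cancel h1]
      exact dvd_mul_right _ _
    · have e : ((b * c - t + q : ℕ) : ℤ) = (b : ℤ) * c + u := by
        rw [Nat.cast_add, Nat.cast_sub h1, hu]
        push_cast
        ring
      rw [← Int.natCast_dvd_natCast, e]
      exact h5
    · have e : ((b * c - t + r : ℕ) : ℤ) = (b : ℤ) * c + v := by
        rw [Nat.cast_add, Nat.cast_sub h1, hv]
        push_cast
        ring
      rw [← Int.natCast_dvd_natCast, e]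
      exact h6
  · intro c hc c' hc' h
    obtain ⟨h1, -⟩ := hbc c hc
    obtain ⟨h1', -⟩ := hbc c' hc'
    simp only at h
    have h2 : b * c = b * c' := by omega
    exact Nat.eq_of_mul_eq_mul_left hb h2

/-- the error for one pair -/
noncomputable def Er (X ε a₀ b₀ : ℝ) (m n : ℕ) : ℝ :=
  X ^ ε * (Real.sqrt ((m : ℝ) * n) + 2 * X ^ b₀ / Real.sqrt ((m : ℝ) * n) +
    2 * X ^ (1 - a₀) / ((m : ℝ) * n))

lemma Er_nonneg {X : ℝ} (hX : 0 < X) (ε a₀ b₀ : ℝ) (m n : ℕ) : 0 ≤ Er X ε a₀ b₀ m n := by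
  unfold Er
  positivity

lemma RR_nonneg (u v : ℤ) (m n : ℕ) : 0 ≤ RR u v m n := by
  unfold RR
  positivity

open Classical in
lemma term_bound {X ε η a₀ b₀ : ℝ} {Z : ℕ} (hX : 1 < X) (hX2 : 2 ≤ X / (2 * Real.log X))
    (h1 : ∀ (s : ℤ) (M : ℕ), s ≠ 0 → Good s Z M → (M : ℝ) ≤ X →
      (1 - η) * ((b₀ - a₀) * Real.log X) * X * rho s 1 M -
        X ^ ε * (Real.sqrt M + X ^ b₀ / Real.sqrt M + X ^ (1 - a₀) / (M : ℝ)) ≤
      ∑ b ∈ In X a₀ b₀, (cc s X M 1 b : ℝ)) {u v : ℤ} (hA : Adm u v)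
    {t q r m n : ℕ} (ht : t ≤ 2) (hu : (q : ℤ) = t + u) (hv : (r : ℤ) = t + v) (hm : 1 ≤ m)
    (hn : 1 ≤ n) (hmn : (m : ℝ) * n ≤ X) :
    (1 - η) * ((b₀ - a₀) * Real.log X) * X * (if Good2 Z m n then RR u v m n else 0) -
      Er X ε a₀ b₀ m n ≤ (SS2 X a₀ b₀ t q r m n : ℝ) := by
  have hX0 : 0 < X := by linarith
  have hL : 0 < Real.log X := Real.log_pos hX
  have hE := Er_nonneg hX0 ε a₀ b₀ m n
  have hS : (0 : ℝ) ≤ (SS2 X a₀ b₀ t q r m n : ℝ) := Nat.cast_nonneg _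
  by_cases hG : Good2 Z m n
  · rw [if_pos hG]
    by_cases hR : RR u v m n = 0
    · rw [hR, mul_zero]
      linarith
    · obtain ⟨s, hs0, hs, hs1, hs2⟩ := exists_s hm hn hR
      have hM0 : 0 < Nat.lcm m n := Nat.lcm_pos hm hn
      have hM0' : (0 : ℝ) < (Nat.lcm m n : ℝ) := by exact_mod_cast hM0
      have hM1 : (Nat.lcm m n : ℝ) ≤ (m : ℝ) * n := by
        exact_mod_cast Nat.le_of_dvd (by positivity) (Nat.lcm_dvd_mul m n)
      have hM2 : (m : ℝ) * n ≤ 2 * (Nat.lcm m n : ℝ) := by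
        exact_mod_cast lcm_ge hA hs1 hs2
      have h2 := h1 s (Nat.lcm m n) hs0 (good_of hG hA hs1 hs2) (hM1.trans hmn)
      rw [rho_eq hm hn hs] at h2
      have hmn0 : (0 : ℝ) < (m : ℝ) * n := by
        have : (0 : ℝ) < m := by exact_mod_cast hm
        have : (0 : ℝ) < n := by exact_mod_cast hn
        positivity
      have hs3 : Real.sqrt (Nat.lcm m n : ℝ) ≤ Real.sqrt ((m : ℝ) * n) := Real.sqrt_le_sqrt hM1
      have hs4 : Real.sqrt ((m : ℝ) * n) ≤ 2 * Real.sqrt (Nat.lcm m n : ℝ) := by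
        have h4 : (2 : ℝ) = Real.sqrt 4 := by
          rw [show (4 : ℝ) = 2 ^ 2 by norm_num, Real.sqrt_sq (by norm_num)]
        rw [h4, ← Real.sqrt_mul (by norm_num)]
        exact Real.sqrt_le_sqrt (by linarith)
      have hsq0 : 0 < Real.sqrt (Nat.lcm m n : ℝ) := Real.sqrt_pos.2 hM0'
      have hsq1 : 0 < Real.sqrt ((m : ℝ) * n) := Real.sqrt_pos.2 hmn0
      have e1 : X ^ b₀ / Real.sqrt (Nat.lcm m n : ℝ) ≤ 2 * X ^ b₀ / Real.sqrt ((m : ℝ) * n) := by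
        rw [div_le_div_iff₀ hsq0 hsq1]
        have : 0 < X ^ b₀ := Real.rpow_pos_of_pos hX0 _
        nlinarith [mul_le_mul_of_nonneg_left hs4 this.le]
      have e2 : X ^ (1 - a₀) / (Nat.lcm m n : ℝ) ≤ 2 * X ^ (1 - a₀) / ((m : ℝ) * n) := by
        rw [div_le_div_iff₀ hM0' hmn0]
        have : 0 < X ^ (1 - a₀) := Real.rpow_pos_of_pos hX0 _
        nlinarith [mul_le_mul_of_nonneg_left hM2 this.le]
      have e3 : X ^ ε * (Real.sqrt (Nat.lcm m n : ℝ) + X ^ b₀ / Real.sqrt (Nat.lcm m n : ℝ) +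
          X ^ (1 - a₀) / (Nat.lcm m n : ℝ)) ≤ Er X ε a₀ b₀ m n := by
        unfold Er
        apply mul_le_mul_of_nonneg_left _ (Real.rpow_pos_of_pos hX0 _).le
        linarith
      have e4 : ∑ b ∈ In X a₀ b₀, (cc s X (Nat.lcm m n) 1 b : ℝ) ≤
          (SS2 X a₀ b₀ t q r m n : ℝ) := by
        unfold SS2
        push_cast
        refine sum_le_sum fun b hb => ?_
        have hb1 : 1 ≤ b := by
          have h5 := (mem_In hX0.le hb).1
          have h6 : (0 : ℝ) < b := (Real.rpow_pos_of_pos hX0 _).trans h5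
          exact_mod_cast h6
        exact_mod_cast cc_le hL hX2 ht hu hv hb1 hs
      linarith
  · rw [if_neg hG, mul_zero]
    linarith

/-! ### the error terms -/

lemma inv_sqrt_sum (k : ℕ) : ∑ m ∈ Ioc 0 k, 1 / Real.sqrt (m : ℝ) ≤ 2 * Real.sqrt k := by
  induction k with
  | zero => simp
  | succ k ih =>
    rw [Finset.sum_Ioc_succ_top (Nat.zero_le k)]
    have h : 1 / Real.sqrt ((k + 1 : ℕ) : ℝ) ≤
        2 * (Real.sqrt ((k + 1 : ℕ) : ℝ) - Real.sqrt k) := by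
      obtain ⟨x, hx⟩ : ∃ x, x = Real.sqrt ((k + 1 : ℕ) : ℝ) := ⟨_, rfl⟩
      obtain ⟨y, hy⟩ : ∃ y, y = Real.sqrt (k : ℝ) := ⟨_, rfl⟩
      have hx2 : x * x = (k : ℝ) + 1 := by
        rw [hx, Real.mul_self_sqrt (by positivity)]
        push_cast
        rfl
      have hy2 : y * y = k := by rw [hy, Real.mul_self_sqrt (by positivity)]
      have hx0 : 0 < x := by rw [hx]; apply Real.sqrt_pos.2; positivity
      have hy0 : 0 ≤ y := by rw [hy]; exact Real.sqrt_nonneg _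
      have hxy : y ≤ x := by
        rw [hx, hy]
        apply Real.sqrt_le_sqrt
        push_cast
        linarith
      rw [← hx, ← hy, div_le_iff₀ hx0]
      nlinarith [mul_nonneg (sub_nonneg.2 hxy) (sub_nonneg.2 hxy)]
    linarith

lemma In_inv_sqrt {X α β : ℝ} (hX : 0 ≤ X) :
    ∑ m ∈ In X α β, 1 / Real.sqrt (m : ℝ) ≤ 2 * X ^ (β / 2) := by
  have h1 : ∑ m ∈ In X α β, 1 / Real.sqrt (m : ℝ) ≤
      ∑ m ∈ Ioc 0 ⌊X ^ β⌋₊, 1 / Real.sqrt (m : ℝ) := by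
    apply Finset.sum_le_sum_of_subset_of_nonneg
    · unfold In
      exact Finset.Ioc_subset_Ioc_left (Nat.zero_le _)
    · intro i _ _
      positivity
  refine h1.trans ((inv_sqrt_sum _).trans ?_)
  have h2 : Real.sqrt ((⌊X ^ β⌋₊ : ℕ) : ℝ) ≤ Real.sqrt (X ^ β) :=
    Real.sqrt_le_sqrt (Nat.floor_le (Real.rpow_nonneg hX β))
  have h3 : Real.sqrt (X ^ β) = X ^ (β / 2) := by
    rw [Real.sqrt_eq_rpow, ← Real.rpow_mul hX]
    congr 1
    ring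
  rw [h3] at h2
  linarith

/-- the total error -/
noncomputable def E3 (X ε a₀ b₀ a₁ b₁ a₂ b₂ : ℝ) : ℝ :=
  X ^ ε * (X ^ (3 / 2 * (b₁ + b₂)) + 8 * X ^ (b₀ + (b₁ + b₂) / 2) +
    2 * X ^ (1 - a₀) * (HH X a₁ b₁ * HH X a₂ b₂))

lemma err_bound {X ε a₀ b₀ a₁ b₁ a₂ b₂ : ℝ} (hX : 1 ≤ X) :
    ∑ m ∈ In X a₁ b₁, ∑ n ∈ In X a₂ b₂, Er X ε a₀ b₀ m n ≤ E3 X ε a₀ b₀ a₁ b₁ a₂ b₂ := by
  have hX0 : 0 < X := by linarith
  have h1 : ∑ m ∈ In X a₁ b₁, ∑ n ∈ In X a₂ b₂, Real.sqrt ((m : ℝ) * n) ≤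
      X ^ (3 / 2 * (b₁ + b₂)) := by
    have h2 : ∀ m ∈ In X a₁ b₁, ∀ n ∈ In X a₂ b₂,
        Real.sqrt ((m : ℝ) * n) ≤ X ^ ((b₁ + b₂) / 2) := by
      intro m hm n hn
      have hm' := (mem_In hX0.le hm).2
      have hn' := (mem_In hX0.le hn).2
      have h3 : X ^ ((b₁ + b₂) / 2) = Real.sqrt (X ^ b₁ * X ^ b₂) := by
        rw [← Real.rpow_add hX0, Real.sqrt_eq_rpow, ← Real.rpow_mul hX0.le]
        congr 1
        ring
      rw [h3]
      apply Real.sqrt_le_sqrt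
      exact mul_le_mul hm' hn' (by positivity) (by positivity)
    calc ∑ m ∈ In X a₁ b₁, ∑ n ∈ In X a₂ b₂, Real.sqrt ((m : ℝ) * n)
        ≤ ∑ m ∈ In X a₁ b₁, ∑ n ∈ In X a₂ b₂, X ^ ((b₁ + b₂) / 2) :=
          Finset.sum_le_sum fun m hm => Finset.sum_le_sum fun n hn => h2 m hm n hn
      _ = ((In X a₁ b₁).card : ℝ) * (((In X a₂ b₂).card : ℝ) * X ^ ((b₁ + b₂) / 2)) := by
          simp only [Finset.sum_const, nsmul_eq_mul]
      _ ≤ X ^ b₁ * (X ^ b₂ * X ^ ((b₁ + b₂) / 2)) := by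
          have c1 := card_In (α := a₁) (β := b₁) hX0.le
          have c2 := card_In (α := a₂) (β := b₂) hX0.le
          gcongr
      _ = X ^ (3 / 2 * (b₁ + b₂)) := by
          rw [← Real.rpow_add hX0, ← Real.rpow_add hX0]
          congr 1
          ring
  have h4 : ∑ m ∈ In X a₁ b₁, ∑ n ∈ In X a₂ b₂, 2 * X ^ b₀ / Real.sqrt ((m : ℝ) * n) ≤
      8 * X ^ (b₀ + (b₁ + b₂) / 2) := by
    have e : ∑ m ∈ In X a₁ b₁, ∑ n ∈ In X a₂ b₂, 2 * X ^ b₀ / Real.sqrt ((m : ℝ) * n) =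
        2 * X ^ b₀ * ((∑ m ∈ In X a₁ b₁, 1 / Real.sqrt (m : ℝ)) *
          ∑ n ∈ In X a₂ b₂, 1 / Real.sqrt (n : ℝ)) := by
      rw [Finset.sum_mul_sum, Finset.mul_sum]
      refine Finset.sum_congr rfl fun m _ => ?_
      rw [Finset.mul_sum]
      refine Finset.sum_congr rfl fun n _ => ?_
      rw [Real.sqrt_mul (Nat.cast_nonneg m), one_div_mul_one_div, mul_one_div]
    rw [e]
    have s1 := In_inv_sqrt (X := X) (α := a₁) (β := b₁) hX0.le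
    have s2 := In_inv_sqrt (X := X) (α := a₂) (β := b₂) hX0.le
    have s3 : (0 : ℝ) ≤ ∑ n ∈ In X a₂ b₂, 1 / Real.sqrt (n : ℝ) :=
      Finset.sum_nonneg fun _ _ => by positivity
    calc 2 * X ^ b₀ * ((∑ m ∈ In X a₁ b₁, 1 / Real.sqrt (m : ℝ)) *
          ∑ n ∈ In X a₂ b₂, 1 / Real.sqrt (n : ℝ))
        ≤ 2 * X ^ b₀ * ((2 * X ^ (b₁ / 2)) * (2 * X ^ (b₂ / 2))) := by
          apply mul_le_mul_of_nonneg_left _ (by positivity)
          exact mul_le_mul s1 s2 s3 (by positivity)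
      _ = 8 * (X ^ b₀ * (X ^ (b₁ / 2) * X ^ (b₂ / 2))) := by ring
      _ = 8 * X ^ (b₀ + (b₁ + b₂) / 2) := by
          rw [← Real.rpow_add hX0, ← Real.rpow_add hX0]
          congr 2
          ring
  have h5 : ∑ m ∈ In X a₁ b₁, ∑ n ∈ In X a₂ b₂, 2 * X ^ (1 - a₀) / ((m : ℝ) * n) =
      2 * X ^ (1 - a₀) * (HH X a₁ b₁ * HH X a₂ b₂) := by
    unfold HH
    rw [Finset.sum_mul_sum, Finset.mul_sum]
    refine Finset.sum_congr rfl fun m _ => ?_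
    rw [Finset.mul_sum]
    refine Finset.sum_congr rfl fun n _ => ?_
    rw [one_div_mul_one_div, mul_one_div]
  unfold Er E3
  simp only [← Finset.mul_sum, Finset.sum_add_distrib]
  rw [h5]
  apply mul_le_mul_of_nonneg_left _ (Real.rpow_pos_of_pos hX0 _).le
  linarith

lemma err_tendsto {ε a₀ b₀ a₁ b₁ a₂ b₂ : ℝ} (h₁ : 0 ≤ a₁) (h₁' : a₁ ≤ b₁) (h₂ : 0 ≤ a₂)
    (h₂' : a₂ ≤ b₂) (h3 : ε + 3 / 2 * (b₁ + b₂) < 1) (h4 : ε + (b₀ + (b₁ + b₂) / 2) < 1)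
    (h5 : ε < a₀) :
    Tendsto (fun X : ℝ => E3 X ε a₀ b₀ a₁ b₁ a₂ b₂ / (X * Real.log X ^ 3)) atTop (𝓝 0) := by
  have hinv : Tendsto (fun X : ℝ => (Real.log X)⁻¹) atTop (𝓝 0) :=
    Real.tendsto_log_atTop.inv_tendsto_atTop
  have hp : ∀ c : ℝ, c < 0 → Tendsto (fun X : ℝ => X ^ c) atTop (𝓝 0) := by
    intro c hc
    have := tendsto_rpow_neg_atTop (y := -c) (by linarith)
    simpa using this
  have e1 : Tendsto (fun X : ℝ => X ^ (ε + 3 / 2 * (b₁ + b₂) - 1) * (Real.log X)⁻¹ ^ 3)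
      atTop (𝓝 (0 * 0 ^ 3)) := (hp _ (by linarith)).mul (hinv.pow 3)
  have e1' : Tendsto (fun X : ℝ => 8 * (X ^ (ε + (b₀ + (b₁ + b₂) / 2) - 1) * (Real.log X)⁻¹ ^ 3))
      atTop (𝓝 (8 * (0 * 0 ^ 3))) := ((hp _ (by linarith)).mul (hinv.pow 3)).const_mul 8
  have e2 : Tendsto (fun X : ℝ => 2 * (X ^ (ε - a₀) * (Real.log X)⁻¹ *
      ((HH X a₁ b₁ / Real.log X) * (HH X a₂ b₂ / Real.log X))))
      atTop (𝓝 (2 * (0 * 0 * ((b₁ - a₁) * (b₂ - a₂))))) :=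
    (((hp _ (by linarith)).mul hinv).mul
      ((HH_tendsto h₁ h₁').mul (HH_tendsto h₂ h₂'))).const_mul 2
  have e3 := (e1.add e1').add e2
  simp only [zero_mul, mul_zero, add_zero] at e3
  refine e3.congr' ?_
  filter_upwards [eventually_gt_atTop (Real.exp 1)] with X hX
  have hX1 : 1 < X := by
    have := Real.add_one_le_exp (1 : ℝ)
    linarith
  have hX0 : 0 < X := by linarith
  have hL : 0 < Real.log X := Real.log_pos hX1
  have r1 : X ^ (ε + 3 / 2 * (b₁ + b₂) - 1) = X ^ ε * X ^ (3 / 2 * (b₁ + b₂)) / X := by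
    rw [Real.rpow_sub hX0, Real.rpow_add hX0, Real.rpow_one]
  have r1' : X ^ (ε + (b₀ + (b₁ + b₂) / 2) - 1) = X ^ ε * X ^ (b₀ + (b₁ + b₂) / 2) / X := by
    rw [Real.rpow_sub hX0, Real.rpow_add hX0, Real.rpow_one]
  have r2 : X ^ (ε - a₀) = X ^ ε * X ^ (1 - a₀) / X := by
    have : ε - a₀ = ε + (1 - a₀) - 1 := by ring
    rw [this, Real.rpow_sub hX0, Real.rpow_add hX0, Real.rpow_one]
  unfold E3
  rw [r1, r1', r2]
  field_simp

lemma ev_large : ∀ᶠ X : ℝ in atTop, 2 ≤ X / (2 * Real.log X) := by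
  have h1 := Real.isLittleO_log_id_atTop.bound (show (0 : ℝ) < 1 / 4 by norm_num)
  filter_upwards [h1, eventually_gt_atTop (1 : ℝ)] with X h2 h3
  have hL : 0 < Real.log X := Real.log_pos h3
  rw [Real.norm_eq_abs, Real.norm_eq_abs, abs_of_pos hL] at h2
  have h4 : |id X| = X := abs_of_pos (by simp only [id]; linarith)
  rw [h4] at h2
  rw [le_div_iff₀ (by positivity)]
  linarith

open Classical in
lemma core (h1 : T1) (h5 : T5) (h6 : T6) (h7 : T7) {u v : ℤ} (hA : Adm u v) {t q r : ℕ}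
    (ht : t ≤ 2) (hu : (q : ℤ) = t + u) (hv : (r : ℤ) = t + v) {a₀ b₀ a₁ b₁ a₂ b₂ : ℝ}
    (h₀ : 0 < a₀) (h₀' : a₀ < b₀) (hb₀ : b₀ ≤ 1 / 2) (h₁ : 0 < a₁) (h₁' : a₁ < b₁) (h₂ : 0 < a₂)
    (h₂' : a₂ < b₂) (hb : b₁ + b₂ < 2 / 3) {w : ℝ}
    (hw : w < (b₀ - a₀) * ((b₁ - a₁) * (b₂ - a₂) * CC)) :
    ∀ᶠ X : ℝ in atTop, w * (X * Real.log X ^ 3) ≤ (CT X a₀ b₀ a₁ b₁ a₂ b₂ t q r : ℝ) := by
  have hCC := h5.1
  have hd0 : 0 < b₀ - a₀ := by linarith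
  have hd1 : 0 < b₁ - a₁ := by linarith
  have hd2 : 0 < b₂ - a₂ := by linarith
  obtain ⟨V, hV⟩ : ∃ V : ℝ, V = (b₀ - a₀) * ((b₁ - a₁) * (b₂ - a₂) * CC) := ⟨_, rfl⟩
  have hV0 : 0 < V := by rw [hV]; positivity
  rw [← hV] at hw
  have hgap : 0 < V - w := by linarith
  have hR := h6 u v hA a₁ b₁ a₂ b₂ h₁ h₁' h₂ h₂'
  obtain ⟨η, hη0, hη1, hη⟩ : ∃ η : ℝ, 0 < η ∧ η < 1 ∧ η * V ≤ (V - w) / 4 := by
    refine ⟨min (1 / 2) ((V - w) / (4 * (V + 1))), by positivity, ?_, ?_⟩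
    · exact lt_of_le_of_lt (min_le_left _ _) (by norm_num)
    · calc min (1 / 2) ((V - w) / (4 * (V + 1))) * V ≤ ((V - w) / (4 * (V + 1))) * V :=
            mul_le_mul_of_nonneg_right (min_le_right _ _) hV0.le
        _ ≤ ((V - w) / (4 * (V + 1))) * (V + 1) :=
            mul_le_mul_of_nonneg_left (by linarith) (by positivity)
        _ = (V - w) / 4 := by field_simp
  obtain ⟨η', hη'0, hη'⟩ : ∃ η' : ℝ, 0 < η' ∧ (b₀ - a₀) * η' = (V - w) / 4 :=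
    ⟨(V - w) / 4 / (b₀ - a₀), by positivity, by field_simp⟩
  obtain ⟨ε, hε0, hε1, hε2, hε3, hε4⟩ : ∃ ε : ℝ, 0 < ε ∧ ε < 1 - b₀ ∧
      ε + 3 / 2 * (b₁ + b₂) < 1 ∧ ε + (b₀ + (b₁ + b₂) / 2) < 1 ∧ ε < a₀ := by
    obtain ⟨e, he⟩ : ∃ e, e = min (1 / 7 : ℝ) (min ((1 - 3 / 2 * (b₁ + b₂)) / 2) (a₀ / 2)) :=
      ⟨_, rfl⟩
    have f1 : e ≤ 1 / 7 := by rw [he]; exact min_le_left _ _
    have f2 : e ≤ (1 - 3 / 2 * (b₁ + b₂)) / 2 := by
      rw [he]; exact (min_le_right _ _).trans (min_le_left _ _)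
    have f3 : e ≤ a₀ / 2 := by rw [he]; exact (min_le_right _ _).trans (min_le_right _ _)
    have f4 : 0 < e := by
      rw [he]
      exact lt_min (by norm_num) (lt_min (by linarith) (by linarith))
    exact ⟨e, f4, by linarith, by linarith, by linarith, by linarith⟩
  obtain ⟨Z, hZ⟩ := h7 u v hA a₁ b₁ a₂ b₂ h₁ h₁' h₂ h₂' η' hη'0
  obtain ⟨X₀, hX₀⟩ := h1 a₀ b₀ h₀ h₀' (by linarith) Z η ε hη0 hε0 hε1
  -- the lower bound for one `X`
  have hlow : ∀ X : ℝ, X₀ ≤ X → 3 ≤ X → 2 ≤ X / (2 * Real.log X) →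
      (1 - η) * ((b₀ - a₀) * Real.log X) * X *
        ((∑ m ∈ In X a₁ b₁, ∑ n ∈ In X a₂ b₂, RR u v m n) - η' * Real.log X ^ 2) -
        E3 X ε a₀ b₀ a₁ b₁ a₂ b₂ ≤ (CT X a₀ b₀ a₁ b₁ a₂ b₂ t q r : ℝ) := by
    intro X hXX hX3 hX2
    have hX0 : 0 < X := by linarith
    have hX1 : 1 ≤ X := by linarith
    have hL : 0 < Real.log X := Real.log_pos (by linarith)
    have hbad := hZ X (by linarith)
    have hc : 0 ≤ (1 - η) * ((b₀ - a₀) * Real.log X) * X := by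
      have : 0 < 1 - η := by linarith
      positivity
    have hsplit : ∑ m ∈ In X a₁ b₁, ∑ n ∈ In X a₂ b₂, (if Good2 Z m n then RR u v m n else 0) =
        (∑ m ∈ In X a₁ b₁, ∑ n ∈ In X a₂ b₂, RR u v m n) -
          ∑ m ∈ In X a₁ b₁, ∑ n ∈ In X a₂ b₂, (if Good2 Z m n then 0 else RR u v m n) := by
      rw [← Finset.sum_sub_distrib]
      refine Finset.sum_congr rfl fun m _ => ?_
      rw [← Finset.sum_sub_distrib]
      refine Finset.sum_congr rfl fun n _ => ?_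
      split_ifs <;> ring
    have hE := err_bound (ε := ε) (a₀ := a₀) (b₀ := b₀) (a₁ := a₁) (b₁ := b₁) (a₂ := a₂)
      (b₂ := b₂) hX1
    have hterm : ∀ m ∈ In X a₁ b₁, ∀ n ∈ In X a₂ b₂,
        (1 - η) * ((b₀ - a₀) * Real.log X) * X * (if Good2 Z m n then RR u v m n else 0) -
          Er X ε a₀ b₀ m n ≤ (SS2 X a₀ b₀ t q r m n : ℝ) := by
      intro m hm n hn
      have hm' := mem_In hX0.le hm
      have hn' := mem_In hX0.le hn
      have hm1 : 1 ≤ m := by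
        have h3 : (0 : ℝ) < m := (Real.rpow_pos_of_pos hX0 _).trans hm'.1
        exact_mod_cast h3
      have hn1 : 1 ≤ n := by
        have h3 : (0 : ℝ) < n := (Real.rpow_pos_of_pos hX0 _).trans hn'.1
        exact_mod_cast h3
      have hmn : (m : ℝ) * n ≤ X := by
        calc (m : ℝ) * n ≤ X ^ b₁ * X ^ b₂ := mul_le_mul hm'.2 hn'.2 (by positivity) (by positivity)
          _ = X ^ (b₁ + b₂) := (Real.rpow_add hX0 _ _).symm
          _ ≤ X ^ (1 : ℝ) := Real.rpow_le_rpow_of_exponent_le hX1 (by linarith)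
          _ = X := Real.rpow_one X
      exact term_bound (by linarith) hX2 (fun s M hs hG hM => hX₀ X hXX s M hs hG hM) hA ht hu hv
        hm1 hn1 hmn
    have hsum : (1 - η) * ((b₀ - a₀) * Real.log X) * X *
        (∑ m ∈ In X a₁ b₁, ∑ n ∈ In X a₂ b₂, (if Good2 Z m n then RR u v m n else 0)) -
        ∑ m ∈ In X a₁ b₁, ∑ n ∈ In X a₂ b₂, Er X ε a₀ b₀ m n ≤
        (CT X a₀ b₀ a₁ b₁ a₂ b₂ t q r : ℝ) := by
      rw [CT_eq]
      push_cast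
      rw [Finset.mul_sum, ← Finset.sum_sub_distrib]
      refine Finset.sum_le_sum fun m hm => ?_
      rw [Finset.mul_sum, ← Finset.sum_sub_distrib]
      exact Finset.sum_le_sum fun n hn => hterm m hm n hn
    have hle : (∑ m ∈ In X a₁ b₁, ∑ n ∈ In X a₂ b₂, RR u v m n) - η' * Real.log X ^ 2 ≤
        ∑ m ∈ In X a₁ b₁, ∑ n ∈ In X a₂ b₂, (if Good2 Z m n then RR u v m n else 0) := by
      rw [hsplit]
      have hbad' : ∑ m ∈ In X a₁ b₁, ∑ n ∈ In X a₂ b₂, (if Good2 Z m n then 0 else RR u v m n) ≤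
        η' * Real.log X ^ 2 := hbad
      linarith
    have hmul := mul_le_mul_of_nonneg_left hle hc
    linarith
  -- the limit
  have hlim : Tendsto (fun X : ℝ => (1 - η) * (b₀ - a₀) *
      ((∑ m ∈ In X a₁ b₁, ∑ n ∈ In X a₂ b₂, RR u v m n) / Real.log X ^ 2 - η') -
      E3 X ε a₀ b₀ a₁ b₁ a₂ b₂ / (X * Real.log X ^ 3)) atTop
      (𝓝 ((1 - η) * (b₀ - a₀) * ((b₁ - a₁) * (b₂ - a₂) * CC - η') - 0)) :=
    ((hR.sub_const η').const_mul _).sub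
      (err_tendsto h₁.le h₁'.le h₂.le h₂'.le hε2 hε3 hε4)
  have hval : w < (1 - η) * (b₀ - a₀) * ((b₁ - a₁) * (b₂ - a₂) * CC - η') - 0 := by
    have e1 : (1 - η) * (b₀ - a₀) * ((b₁ - a₁) * (b₂ - a₂) * CC - η') =
        (1 - η) * (V - (b₀ - a₀) * η') := by
      rw [hV]
      ring
    rw [sub_zero, e1, hη']
    nlinarith
  filter_upwards [hlim.eventually (lt_mem_nhds hval), eventually_ge_atTop (max X₀ 3), ev_large]
    with X hX1 hX2 hX4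
  have hX3 : 3 ≤ X := (le_max_right _ _).trans hX2
  have hX0 : 0 < X := by linarith
  have hL : 0 < Real.log X := Real.log_pos (by linarith)
  refine le_trans ?_ (hlow X ((le_max_left _ _).trans hX2) hX3 hX4)
  have hXL : 0 < X * Real.log X ^ 3 := by positivity
  have h9 := mul_le_mul_of_nonneg_right hX1.le hXL.le
  refine h9.trans (le_of_eq ?_)
  field_simp

end P8

open P8 in
/-- **TR8.** -/
theorem t8 : T1 → T5 → T6 → T7 → T8 := by
  intro h1 h5 h6 h7 α β hαβ hij v hv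
  have k12 : β 1 + β 2 < 2 / 3 →
      ∀ᶠ X : ℝ in atTop, v * (X * Real.log X ^ 3) ≤ (C3 X α β : ℝ) := by
    intro h
    have hw : v < (β 0 - α 0) * ((β 1 - α 1) * (β 2 - α 2) * CC) := by
      rw [Fin.prod_univ_three] at hv
      linarith
    have hc := core h1 h5 h6 h7 (u := 1) (v := 2) (Or.inl ⟨rfl, rfl⟩) (t := 0) (q := 1) (r := 2)
      (by norm_num) (by norm_num) (by norm_num) (hαβ 0).1 (hαβ 0).2.1 (hαβ 0).2.2 (hαβ 1).1
      (hαβ 1).2.1 (hαβ 2).1 (hαβ 2).2.1 h hw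
    filter_upwards [hc] with X hX
    refine hX.trans (le_of_eq ?_)
    congr 1
    unfold CT C3
    refine Finset.sum_congr rfl fun N _ => ?_
    rw [add_zero]
    ring
  have k02 : β 0 + β 2 < 2 / 3 →
      ∀ᶠ X : ℝ in atTop, v * (X * Real.log X ^ 3) ≤ (C3 X α β : ℝ) := by
    intro h
    have hw : v < (β 1 - α 1) * ((β 0 - α 0) * (β 2 - α 2) * CC) := by
      rw [Fin.prod_univ_three] at hv
      linarith
    have hc := core h1 h5 h6 h7 (u := -1) (v := 1) (Or.inr (Or.inl ⟨rfl, rfl⟩)) (t := 1) (q := 0)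
      (r := 2) (by norm_num) (by norm_num) (by norm_num) (hαβ 1).1 (hαβ 1).2.1 (hαβ 1).2.2
      (hαβ 0).1 (hαβ 0).2.1 (hαβ 2).1 (hαβ 2).2.1 h hw
    filter_upwards [hc] with X hX
    refine hX.trans (le_of_eq ?_)
    congr 1
    unfold CT C3
    refine Finset.sum_congr rfl fun N _ => ?_
    rw [add_zero]
    ring
  have k01 : β 0 + β 1 < 2 / 3 →
      ∀ᶠ X : ℝ in atTop, v * (X * Real.log X ^ 3) ≤ (C3 X α β : ℝ) := by
    intro h
    have hw : v < (β 2 - α 2) * ((β 0 - α 0) * (β 1 - α 1) * CC) := by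
      rw [Fin.prod_univ_three] at hv
      linarith
    have hc := core h1 h5 h6 h7 (u := -2) (v := -1) (Or.inr (Or.inr ⟨rfl, rfl⟩)) (t := 2) (q := 0)
      (r := 1) (by norm_num) (by norm_num) (by norm_num) (hαβ 2).1 (hαβ 2).2.1 (hαβ 2).2.2
      (hαβ 0).1 (hαβ 0).2.1 (hαβ 1).1 (hαβ 1).2.1 h hw
    filter_upwards [hc] with X hX
    refine hX.trans (le_of_eq ?_)
    congr 1
    unfold CT C3
    refine Finset.sum_congr rfl fun N _ => ?_
    rw [add_zero]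
    ring
  obtain ⟨i, j, hne, hlt⟩ := hij
  fin_cases i <;> fin_cases j <;> simp only [Fin.zero_eta, Fin.mk_one, Fin.reduceFinMk] at hlt hne
  · exact absurd rfl hne
  · exact k01 hlt
  · exact k02 hlt
  · exact k01 (by linarith)
  · exact absurd rfl hne
  · exact k12 hlt
  · exact k02 (by linarith)
  · exact k12 (by linarith)
  · exact absurd rfl hne

end Pool.Agent.H592.TR
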